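import Pool.Agent.Lib.MP_34a220_an.Final

/-!
# A regularly and persistently recurrent turning point whose limit set is a minimal
non-odometer homeomorphism

The map is the tent map of slope `1.97261…` whose kneading sequence is the image of the fixed point
of the substitution `A → ABCCC`, `B → CABAC`, `C → ABCCA` under `A → 1`, `B → 0`, `C → 0`.
-/

namespace Pool.Agent.Results.MP_34a220_an.RegPersNonOdometer

open Pool.Agent.Lib.MP_34a220_an

/-- There is a unimodal map `f` whose turning point `c` is recurrent and not periodic, regularly
recurrent and persistently recurrent, and such that `f` restricts to a minimal homeomorphism of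
`ω(c)` which is not conjugate to any odometer. -/
theorem result : ∃ (f : unitInterval → unitInterval) (c : unitInterval),
    IsUnimodal f c ∧ InfRecurrent f c ∧
    RegRecurrent f c ∧
    IsHomeoOn f (omegaSet f c) ∧ OrbitsDenseIn f (omegaSet f c) ∧
    ¬ ConjToOdometer f (omegaSet f c) ∧
    PersRecurrent f c ∧ StrongPersRecurrent f c :=
  main

end Pool.Agent.Results.MP_34a220_an.RegPersNonOdometer
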